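import Pool.Agent.MVO.StmtsA

/-!
# Squad MVO, row GAA: every word is equivalent to a gathered word in class a
-/

namespace Pool.Agent.MVO.H97

open Pool.Agent.MVO Pool.Agent.Helper14_MV Pool.Agent.Helper2_MV

theorem getLast_dedup (p : ℕ → Bool) (w : List ℕ) :
    (w.dedup.filter p).getLast? = (w.filter p).getLast? := by
  induction w with
  | nil => rfl
  | cons a w ih =>
    by_cases ha : a ∈ w
    · rw [List.dedup_cons_of_mem ha, ih]
      by_cases hp : p a = true
      · rw [List.filter_cons_of_pos hp, List.getLast?_cons]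
        have h1 : a ∈ w.filter p := List.mem_filter.2 ⟨ha, hp⟩
        have h2 : w.filter p ≠ [] := List.ne_nil_of_mem h1
        rw [List.getLast?_eq_getLast_of_ne_nil h2]
        rfl
      · rw [List.filter_cons_of_neg hp]
    · rw [List.dedup_cons_of_notMem ha]
      by_cases hp : p a = true
      · rw [List.filter_cons_of_pos hp, List.filter_cons_of_pos hp, List.getLast?_cons,
          List.getLast?_cons, ih]
      · rw [List.filter_cons_of_neg hp, List.filter_cons_of_neg hp, ih]

theorem gb_cons (n : ℕ → ℕ) (a : ℕ) (L : List ℕ) :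
    gb n (a :: L) = List.replicate (n a) a ++ gb n L := by
  unfold gb
  rw [List.flatMap_cons]

theorem gb_append (n : ℕ → ℕ) (L M : List ℕ) : gb n (L ++ M) = gb n L ++ gb n M := by
  unfold gb
  rw [List.flatMap_append]

theorem filter_gb (n : ℕ → ℕ) (p : ℕ → Bool) (L : List ℕ) :
    (gb n L).filter p = gb n (L.filter p) := by
  induction L with
  | nil => rfl
  | cons a L ih =>
    rw [gb_cons, List.filter_append, ih]
    by_cases hp : p a = true
    · rw [List.filter_cons_of_pos hp, gb_cons, List.filter_replicate, if_pos hp]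
    · rw [List.filter_cons_of_neg hp, List.filter_replicate, if_neg hp, List.nil_append]

theorem mem_gb {n : ℕ → ℕ} {L : List ℕ} {c : ℕ} (h : c ∈ gb n L) : c ∈ L := by
  unfold gb at h
  rw [List.mem_flatMap] at h
  obtain ⟨a, ha, hc⟩ := h
  rw [List.eq_of_mem_replicate hc]
  exact ha

theorem count_gb {n : ℕ → ℕ} {L : List ℕ} (hL : L.Nodup) {c : ℕ} (hc : c ∈ L) :
    (gb n L).count c = n c := by
  induction L with
  | nil => exact absurd hc (List.not_mem_nil)
  | cons a L ih =>
    rw [gb_cons, List.count_append, List.count_replicate]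
    rw [List.nodup_cons] at hL
    by_cases h : a = c
    · subst h
      have h1 : (gb n L).count a = 0 := List.count_eq_zero.2 (fun hm => hL.1 (mem_gb hm))
      rw [h1]
      simp
    · have h2 : c ∈ L := by
        rcases List.mem_cons.1 hc with h3 | h3
        · exact absurd h3.symm h
        · exact h3
      rw [ih hL.2 h2]
      have h3 : (a == c) = false := by simpa using h
      rw [h3]
      simp

theorem count_gb_zero {n : ℕ → ℕ} {L : List ℕ} {c : ℕ} (hc : c ∉ L) :
    (gb n L).count c = 0 := List.count_eq_zero.2 (fun hm => hc (mem_gb hm))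

/-- the last letter of a gathered block -/
theorem last_gb {n : ℕ → ℕ} {p : ℕ → Bool} {L : List ℕ} {z : ℕ}
    (hz : (L.filter p).getLast? = some z) (hn : 1 ≤ n z) :
    ((gb n L).filter p).getLast? = some z := by
  rw [filter_gb]
  obtain ⟨M, hM⟩ := List.getLast?_eq_some_iff.1 hz
  rw [hM, gb_append, gb_cons]
  have h0 : gb n ([] : List ℕ) = [] := rfl
  rw [h0, List.append_nil, List.getLast?_append]
  have h1 : (List.replicate (n z) z).getLast? = some z := by
    rw [List.getLast?_replicate, if_neg (by omega)]
  rw [h1]
  rfl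

theorem filter_asm_succ {k : ℕ} {B : ℕ → List ℕ} {p : ℕ → Bool} (hp : p (k + 2) = false) :
    (asm (k + 1) B).filter p = (asm k B).filter p ++ (B (k + 1)).filter p := by
  simp only [asm]
  rw [List.filter_append, List.filter_cons_of_neg (by rw [hp]; exact Bool.false_ne_true)]

theorem filter_nil_of_count {A C : List ℕ} {p : ℕ → Bool} (h : ∀ c, A.count c = C.count c)
    (hA : A.filter p = []) : C.filter p = [] := by
  rw [List.filter_eq_nil_iff] at hA ⊢
  intro c hc
  apply hA c
  have h1 : 0 < C.count c := List.count_pos_iff.2 hc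
  rw [← h c] at h1
  exact List.count_pos_iff.1 h1

/-- one block -/
theorem last_block {B G : List ℕ} {n : ℕ → ℕ} {L : List ℕ} {p : ℕ → Bool}
    (hcount : ∀ c, B.count c = G.count c) (hn : ∀ c, n c = B.count c) (hG : G = gb n L)
    (hl : (B.filter p).getLast? = (L.filter p).getLast?) :
    (G.filter p).getLast? = (L.filter p).getLast? := by
  cases hz : (L.filter p).getLast? with
  | none =>
    rw [hz] at hl
    have h1 : B.filter p = [] := List.getLast?_eq_none_iff.1 hl
    rw [filter_nil_of_count hcount h1]
    rfl
  | some z =>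
    rw [hz] at hl
    obtain ⟨M, hM⟩ := List.getLast?_eq_some_iff.1 hl
    have h1 : z ∈ B.filter p := by rw [hM]; simp
    have h2 : z ∈ B := (List.mem_filter.1 h1).1
    rw [hG]
    apply last_gb hz
    rw [hn z]
    exact List.count_pos_iff.2 h2

/-- all blocks -/
theorem last_asm {K : ℕ} {B : ℕ → List ℕ} {n : ℕ → ℕ → ℕ} {L : List ℕ} {p : ℕ → Bool}
    (hp : ∀ j, 2 ≤ j → j ≤ K + 1 → p j = false)
    (hn : ∀ j ≤ K, ∀ c, n j c = (B j).count c)
    (hcount : ∀ j ≤ K, ∀ c, (B j).count c = (gb (n j) L).count c) :
    ∀ k ≤ K, ((asm k B).filter p).getLast? = (L.filter p).getLast? →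
      ((asm k (fun j => gb (n j) L)).filter p).getLast? = (L.filter p).getLast? := by
  intro k
  induction k with
  | zero =>
    intro hk hl
    exact last_block (hcount 0 hk) (hn 0 hk) rfl hl
  | succ k ih =>
    intro hk hl
    have hpk : p (k + 2) = false := hp (k + 2) (by omega) (by omega)
    rw [filter_asm_succ hpk, List.getLast?_append] at hl ⊢
    cases hB : ((B (k + 1)).filter p).getLast? with
    | none =>
      rw [hB, Option.none_or] at hl
      have h1 : (B (k + 1)).filter p = [] := List.getLast?_eq_none_iff.1 hB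
      have h2 : (gb (n (k + 1)) L).filter p = [] := filter_nil_of_count (hcount (k + 1) hk) h1
      rw [h2]
      exact ih (by omega) hl
    | some z =>
      rw [hB, Option.some_or] at hl
      have h1 := last_block (hcount (k + 1) hk) (hn (k + 1) hk) (G := gb (n (k + 1)) L) rfl
        (hB.trans hl)
      rw [h1, ← hl, Option.some_or]

theorem gaa (h : NfaStmt) : GaaStmt := by
  intro β hβ k B X hB hX hns hmem hdeg
  set L : List ℕ := (asm k B).dedup.filter (fun c => decide (c ∈ X)) with hLdef
  have hLnd : L.Nodup := (List.nodup_dedup _).filter _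
  have hXasm : ∀ c ∈ X, c ∈ asm k B := by
    intro c hc
    have h1 := hdeg c hc
    rw [← count_asm (hns c hc)] at h1
    exact List.count_pos_iff.1 (by omega)
  have hasmX : ∀ c, NS k c → c ∈ asm k B → c ∈ X := by
    intro c hc h1
    rcases mem_asm.1 h1 with h2 | ⟨j, hj, h2⟩
    · exact absurd h2 hc
    · exact hmem j hj c h2
  have hLX : ∀ c, c ∈ L ↔ c ∈ X := by
    intro c
    rw [hLdef, List.mem_filter, List.mem_dedup, decide_eq_true_iff]
    constructor
    · intro h1; exact h1.2
    · intro h1; exact ⟨hXasm c h1, h1⟩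
  have hperm : L.Perm X := (List.perm_ext_iff_of_nodup hLnd hX).2 hLX
  refine ⟨fun _ => L, fun _ => hperm, ?_⟩
  have hcount : ∀ j ≤ k, ∀ c, (B j).count c = (gb (fun c => (B j).count c) L).count c := by
    intro j hj c
    by_cases hc : c ∈ L
    · rw [count_gb hLnd hc]
    · rw [count_gb_zero hc]
      exact List.count_eq_zero.2 (fun h1 => hc ((hLX c).2 (hmem j hj c h1)))
  show RR β (asm k B) (asm k (fun j => gb (fun c => (B j).count c) L))
  apply h β hβ k B (fun j => gb (fun c => (B j).count c) L) hB
  · intro j hj c hc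
    exact hns c ((hLX c).1 (mem_gb hc))
  · exact hcount
  · intro j hj c hc
    exact hdeg c (hmem j hj c hc)
  · intro c d hc hd
    have hlast : ((asm k B).filter (fun x => decide (x = c ∨ x = d))).getLast? =
        (L.filter (fun x => decide (x = c ∨ x = d))).getLast? := by
      have e1 : L.filter (fun x => decide (x = c ∨ x = d)) =
          (asm k B).dedup.filter (fun x => decide (x = c ∨ x = d)) := by
        rw [hLdef, List.filter_filter]
        apply List.filter_congr
        intro x hx
        rw [List.mem_dedup] at hx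
        by_cases h1 : x = c ∨ x = d
        · have h2 : x ∈ X := by
            rcases h1 with h1 | h1
            · rw [h1] at hx ⊢; exact hasmX c hc hx
            · rw [h1] at hx ⊢; exact hasmX d hd hx
          simp [h1, h2]
        · simp [h1]
      rw [e1, getLast_dedup]
    rw [hlast]
    symm
    apply last_asm (K := k) (B := B) (n := fun j c => (B j).count c) ?_ ?_ hcount k (le_refl k)
      hlast
    · intro j h1 h2
      rw [decide_eq_false_iff_not]
      rintro (h3 | h3)
      · exact hc ⟨by omega, by omega⟩
      · exact hd ⟨by omega, by omega⟩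
    · intro j _ c
      rfl

end Pool.Agent.MVO.H97
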