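import Pool.Agent.MVO.StmtsC
import Pool.Agent.Helper97_MVO.GAA

/-!
# Squad MVO, row EXC: the free exchanges in gathered words (class c1)
-/

namespace Pool.Agent.MVO.H97

open Pool.Agent.MVO Pool.Agent.Helper14_MV Pool.Agent.Helper2_MV

theorem exc_cob1 {w l L1 L2 : List ℕ} {m : ℕ → ℕ} {F1 F2 F3 : List ℕ} {u v : ℕ}
    (hu : 1 ≤ m u) (hv : 1 ≤ m v) (hmult : ∀ z ∈ F2, 2 ≤ w.count z)
    (hl : l = L1 ++ gb m (F1 ++ u :: (F2 ++ v :: F3)) ++ L2) : Cob w l u v := by
  obtain ⟨s, hs⟩ : ∃ s, m u = s + 1 := ⟨m u - 1, by omega⟩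
  obtain ⟨t, ht⟩ : ∃ t, m v = t + 1 := ⟨m v - 1, by omega⟩
  refine ⟨L1 ++ gb m F1 ++ List.replicate s u, gb m F2,
    List.replicate t v ++ gb m F3 ++ L2, ?_, fun z hz => hmult z (mem_gb hz)⟩
  rw [hl, gb_append, gb_cons, gb_append, gb_cons, hs, ht, List.replicate_succ',
    List.replicate_succ]
  simp only [List.append_assoc, List.cons_append, List.nil_append]

theorem exc_cob {w l L1 L2 : List ℕ} {m : ℕ → ℕ} {E : List ℕ} {x y : ℕ} (hxy : x ≠ y)
    (hx : x ∈ E) (hy : y ∈ E) (hmx : 1 ≤ m x) (hmy : 1 ≤ m y)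
    (hmult : ∀ z ∈ E, 2 ≤ w.count z) (hl : l = L1 ++ gb m E ++ L2) :
    Cob w l x y ∨ Cob w l y x := by
  obtain ⟨E1, E2, hE⟩ := List.append_of_mem hx
  have hy' : y ∈ E1 ∨ y ∈ E2 := by
    rw [hE, List.mem_append, List.mem_cons] at hy
    rcases hy with h | h | h
    · exact Or.inl h
    · exact absurd h.symm hxy
    · exact Or.inr h
  rcases hy' with h | h
  · right
    obtain ⟨F1, F2, hF⟩ := List.append_of_mem h
    have hE2 : E = F1 ++ y :: (F2 ++ x :: E2) := by
      rw [hE, hF]; simp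
    apply exc_cob1 (L1 := L1) (L2 := L2) (F1 := F1) (F2 := F2) (F3 := E2) hmy hmx ?_
      (by rw [hl, hE2])
    intro z hz
    apply hmult z
    rw [hE2]
    simp [hz]
  · left
    obtain ⟨F1, F2, hF⟩ := List.append_of_mem h
    have hE2 : E = E1 ++ x :: (F1 ++ y :: F2) := by
      rw [hE, hF]
    apply exc_cob1 (L1 := L1) (L2 := L2) (F1 := E1) (F2 := F1) (F3 := F2) hmx hmy ?_
      (by rw [hl, hE2])
    intro z hz
    apply hmult z
    rw [hE2]
    simp [hz]

theorem exc_mem_gb {m : ℕ → ℕ} {E : List ℕ} {z : ℕ} (hz : z ∈ E) (hm : 1 ≤ m z) :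
    z ∈ gb m E := by
  unfold gb
  rw [List.mem_flatMap]
  refine ⟨z, hz, ?_⟩
  rw [List.mem_replicate]
  exact ⟨by omega, rfl⟩

theorem exc (pwc : PwcStmt) : ExcStmt := by
  intro β hcl k X n D hG i hi A B x y hD hF hZ
  have hnd : ∀ j, (D j).Nodup := fun j => (hG.perm j).nodup_iff.2 hG.nodup
  have hmem : ∀ j z, z ∈ D j ↔ z ∈ X := fun j z => (hG.perm j).mem_iff
  have hxD : x ∈ D i := by rw [hD]; simp
  have hyD : y ∈ D i := by rw [hD]; simp
  have hxX : x ∈ X := (hmem i x).1 hxD
  have hyX : y ∈ X := (hmem i y).1 hyD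
  have hxy : x ≠ y := by
    intro h
    have h1 := hnd i
    rw [hD, h, List.nodup_append'] at h1
    have h2 := h1.2.1
    rw [List.nodup_cons] at h2
    exact h2.1 (List.mem_cons_self ..)
  set blk : ℕ → List ℕ := fun j => gb (n j) (D j) with hblk
  have e0 : gw k n D = asm k blk := rfl
  have e1 : gw k n (Function.update D i (A ++ y :: x :: B)) =
      asm k (Function.update blk i (gb (n i) (A ++ y :: x :: B))) := by
    unfold gw
    apply asm_congr
    intro j _
    by_cases hj : j = i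
    · subst hj
      rw [Function.update_self, Function.update_self]
    · rw [Function.update_of_ne hj, Function.update_of_ne hj]
  set p : List ℕ := pre blk i ++ gb (n i) A with hp
  set q : List ℕ := gb (n i) B ++ suf blk i (k - i) with hq
  have hw : gw k n D = p ++ List.replicate (n i x) x ++ List.replicate (n i y) y ++ q := by
    rw [e0, asm_split hi]
    have e2 : blk i = gb (n i) (A ++ x :: y :: B) := by rw [hblk, ← hD]
    rw [e2, gb_append, gb_cons, gb_cons, hp, hq]
    simp only [List.append_assoc]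
  have hw' : gw k n (Function.update D i (A ++ y :: x :: B)) =
      p ++ List.replicate (n i y) y ++ List.replicate (n i x) x ++ q := by
    rw [e1, asm_update hi, gb_append, gb_cons, gb_cons, hp, hq]
    simp only [List.append_assoc]
  rw [hw']
  -- counts
  have hcnt : ∀ z ∈ X, 2 ≤ (gw k n D).count z := by
    intro z hz
    rw [e0, count_asm (hG.ns z hz)]
    have h1 : deg k (fun j => (blk j).count z) = deg k (fun j => n j z) := by
      unfold deg
      apply Finset.sum_congr rfl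
      intro j _
      exact count_gb (hnd j) ((hmem j z).2 hz)
    rw [h1]
    exact hG.mult z hz
  by_cases ha : n i x = 0
  · rw [hw, ha]
    simp only [List.replicate_zero, List.append_nil]
    exact RR.refl _
  by_cases hb : n i y = 0
  · rw [hw, hb]
    simp only [List.replicate_zero, List.append_nil]
    exact RR.refl _
  have hpP : ∀ z ∈ X, (∃ j < i, 1 ≤ n j z) → z ∈ p := by
    rintro z hz ⟨j, hj, h1⟩
    rw [hp, List.mem_append]
    exact Or.inl (mem_pre.2 (Or.inr ⟨j, hj, exc_mem_gb ((hmem j z).2 hz) h1⟩))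
  have hqQ : ∀ z ∈ X, (∃ j, i < j ∧ j ≤ k ∧ 1 ≤ n j z) → z ∈ q := by
    rintro z hz ⟨j, hj, hjk, h1⟩
    rw [hq, List.mem_append]
    exact Or.inr (mem_suf.2 (Or.inr ⟨j, hj, by omega, exc_mem_gb ((hmem j z).2 hz) h1⟩))
  have honly : ∀ z ∈ X, ¬ (∃ j < i, 1 ≤ n j z) → ¬ (∃ j, i < j ∧ j ≤ k ∧ 1 ≤ n j z) →
      2 ≤ n i z := by
    intro z hz h1 h2
    have h3 := hG.mult z hz
    unfold deg at h3
    rw [Finset.sum_eq_single_of_mem i (Finset.mem_range.2 (by omega)) ?_] at h3
    · exact h3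
    · intro j hj hji
      rw [Finset.mem_range] at hj
      by_contra h4
      rcases Nat.lt_or_gt_of_ne hji with h5 | h5
      · exact h1 ⟨j, h5, by omega⟩
      · exact h2 ⟨j, h5, by omega, by omega⟩
  apply pwc β hcl p q x y (n i x) (n i y) (gw k n D) hw
  by_cases hco : ∃ j, j ≤ k ∧ j ≠ i ∧ 1 ≤ n j x ∧ 1 ≤ n j y
  · obtain ⟨j, hjk, hji, h1, h2⟩ := hco
    have hm : ∀ z ∈ D j, 2 ≤ (gw k n D).count z := fun z hz => hcnt z ((hmem j z).1 hz)
    rcases Nat.lt_or_gt_of_ne hji with h5 | h5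
    · obtain ⟨R, hR⟩ := pre_split (B := blk) h5
      have h6 : Cob (gw k n D) p x y ∨ Cob (gw k n D) p y x := by
        apply exc_cob (L1 := pre blk j) (L2 := R ++ gb (n i) A) hxy ((hmem j x).2 hxX)
          ((hmem j y).2 hyX) h1 h2 hm
        rw [hp, hR]
        simp only [List.append_assoc, hblk]
      tauto
    · obtain ⟨R, R', hR⟩ := suf_split (B := blk) (r := k - i) h5 (by omega)
      have h6 : Cob (gw k n D) q x y ∨ Cob (gw k n D) q y x := by
        apply exc_cob (L1 := gb (n i) B ++ R) (L2 := R') hxy ((hmem j x).2 hxX)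
          ((hmem j y).2 hyX) h1 h2 hm
        rw [hq, hR]
        simp only [List.append_assoc, hblk]
      tauto
  have hdis : ∀ j ≤ k, j ≠ i → n j x = 0 ∨ n j y = 0 := by
    intro j hj hji
    by_contra h
    exact hco ⟨j, hj, hji, by omega, by omega⟩
  by_cases Bx : ∃ j < i, 1 ≤ n j x
  · by_cases Ay : ∃ j, i < j ∧ j ≤ k ∧ 1 ≤ n j y
    · exact Or.inl ⟨hpP x hxX Bx, hqQ y hyX Ay⟩
    by_cases Ax : ∃ j, i < j ∧ j ≤ k ∧ 1 ≤ n j x
    · by_cases By : ∃ j < i, 1 ≤ n j y
      · exact Or.inr (Or.inl ⟨hpP y hyX By, hqQ x hxX Ax⟩)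
      · exact Or.inr (Or.inr (Or.inl ⟨hpP x hxX Bx, honly y hyX By Ay⟩))
    · by_cases hb2 : 2 ≤ n i y
      · exact Or.inr (Or.inr (Or.inl ⟨hpP x hxX Bx, hb2⟩))
      · have By : ∃ j < i, 1 ≤ n j y := by
          by_contra h
          exact hb2 (honly y hyX h Ay)
        have ha2 : 2 ≤ n i x := by
          by_contra ha2
          apply hZ
          refine ⟨?_, hdis, ?_, ?_⟩
          · intro j hj hij
            show n j x = 0 ∧ n j y = 0
            constructor
            · by_contra h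
              exact Ax ⟨j, hij, hj, by omega⟩
            · by_contra h
              exact Ay ⟨j, hij, hj, by omega⟩
          · show n i x = 1
            omega
          · show n i y = 1
            omega
        exact Or.inr (Or.inr (Or.inr (Or.inl ⟨hpP y hyX By, ha2⟩)))
  · by_cases By : ∃ j < i, 1 ≤ n j y
    · by_cases Ax : ∃ j, i < j ∧ j ≤ k ∧ 1 ≤ n j x
      · exact Or.inr (Or.inl ⟨hpP y hyX By, hqQ x hxX Ax⟩)
      · exact Or.inr (Or.inr (Or.inr (Or.inl ⟨hpP y hyX By, honly x hxX Bx Ax⟩)))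
    · have h7 : ¬ (n i x = 1 ∨ n i y = 1) := by
        intro h8
        apply hF
        refine ⟨?_, hdis, ?_, ?_, h8⟩
        · intro j hj
          show n j x = 0 ∧ n j y = 0
          constructor
          · by_contra h
            exact Bx ⟨j, hj, by omega⟩
          · by_contra h
            exact By ⟨j, hj, by omega⟩
        · show 1 ≤ n i x
          omega
        · show 1 ≤ n i y
          omega
      refine Or.inr (Or.inr (Or.inr (Or.inr (Or.inl ⟨?_, ?_⟩))))
      · by_contra h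
        exact h7 (Or.inl (by omega))
      · by_contra h
        exact h7 (Or.inr (by omega))

end Pool.Agent.MVO.H97
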