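import Pool.Agent.MVO.StmtsN

/-!
# Squad MVO, row GTB: the congruences of a set of pairs of types lie above the congruence
-/

namespace Pool.Agent.MVO.H97

open Pool.Agent.MVO Pool.Agent.Helper14_MV Pool.Agent.Helper2_MV

theorem gtb_blk {k : ℕ} {B : ℕ → List ℕ} (hB : ∀ j ≤ k, ∀ c ∈ B j, c = 0 ∨ c = 1) :
    BlkOk k B := by
  intro j hj c hc hs
  rcases hB j hj c hc with h | h <;> omega

theorem gtb_flat (z : ℕ) (l : List ℕ) :
    l.flatMap (fun c => if c = z then [0] else []) = List.replicate (l.count z) 0 := by
  induction l with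
  | nil => rfl
  | cons a l ih =>
    rw [List.flatMap_cons, ih]
    by_cases h : a = z
    · subst h
      rw [if_pos rfl, List.count_cons_self, List.replicate_succ]
      rfl
    · rw [if_neg h, List.count_cons_of_ne h]
      rfl

/-- related words have related types -/
theorem gtb_L1 {β : FIC} {k : ℕ} {B B' : ℕ → List ℕ} (hB : BlkOk k B) (hB' : BlkOk k B')
    (h : RR β (asm k B) (asm k B')) (z : ℕ) :
    L1 β k (fun j => (B j).count z) (fun j => (B' j).count z) := by
  have h1 := rr_sub β (fun c => if c = z then [0] else []) hB hB' h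
  simp only [gtb_flat] at h1
  exact h1

/-- the last letter of a word in blocks -/
theorem gtb_last_asm {l z : ℕ} {B : ℕ → List ℕ} {p : ℕ → Bool} : ∀ k : ℕ, l ≤ k →
    (∀ j, l < j → j ≤ k → B j = []) → ((B l).filter p).getLast? = some z →
    (∀ c, 2 ≤ c → c ≤ k + 1 → p c = false) → ((asm k B).filter p).getLast? = some z := by
  intro k
  induction k with
  | zero =>
    intro hl _ hz _
    have : l = 0 := by omega
    subst this
    exact hz
  | succ k ih =>
    intro hl hnil hz hp
    have hpk : p (k + 2) = false := hp (k + 2) (by omega) (by omega)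
    have e1 : (asm (k + 1) B).filter p = (asm k B).filter p ++ (B (k + 1)).filter p := by
      simp only [asm]
      rw [List.filter_append, List.filter_cons_of_neg (by rw [hpk]; exact Bool.false_ne_true)]
    rw [e1, List.getLast?_append]
    by_cases h : l = k + 1
    · rw [← h, hz]
      rfl
    · rw [hnil (k + 1) (by omega) (le_refl _)]
      rw [ih (by omega) (fun j h1 h2 => hnil j h1 (by omega)) hz
        (fun c h1 h2 => hp c h1 (by omega))]
      rfl

theorem gtb_mem {k : ℕ} {B : ℕ → List ℕ} (hB : ∀ j ≤ k, ∀ c ∈ B j, c = 0 ∨ c = 1) {x : ℕ}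
    (hx : x ∈ asm k B) : (2 ≤ x ∧ x ≤ k + 1) ∨ x = 0 ∨ x = 1 := by
  rcases mem_asm.1 hx with h | ⟨j, hj, h⟩
  · exact Or.inl h
  · exact Or.inr (hB j hj x h)

/-- filter to one letter -/
theorem gtb_one {k : ℕ} {B : ℕ → List ℕ} (hB : ∀ j ≤ k, ∀ c ∈ B j, c = 0 ∨ c = 1) {z : ℕ}
    (hz : NS k z) {p : ℕ → Bool} (hp : ∀ x, x = 0 ∨ x = 1 → (p x = true ↔ x = z))
    (hp2 : ∀ x, 2 ≤ x → x ≤ k + 1 → p x = false) :
    (asm k B).filter p = List.replicate (deg k (fun j => (B j).count z)) z := by
  have e1 : (asm k B).filter p = (asm k B).filter (fun x => x == z) := by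
    apply List.filter_congr
    intro x hx
    rcases gtb_mem hB hx with h | h
    · rw [hp2 x h.1 h.2]
      have : x ≠ z := by
        intro he
        subst he
        exact hz h
      simp [this]
    · have h1 := hp x h
      by_cases h2 : x = z
      · rw [h1.2 h2]
        simp [h2]
      · have h3 : p x = false := by
          rw [← Bool.not_eq_true]
          exact fun h4 => h2 (h1.1 h4)
        rw [h3]
        simp [h2]
  rw [e1, List.filter_beq, count_asm hz]

theorem gtb_last {k : ℕ} {B B' : ℕ → List ℕ} (hB : ∀ j ≤ k, ∀ c ∈ B j, c = 0 ∨ c = 1)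
    (hB' : ∀ j ≤ k, ∀ c ∈ B' j, c = 0 ∨ c = 1)
    (hc : ∀ j ≤ k, ∀ c, (B j).count c = (B' j).count c)
    (hl : ((asm k B).filter (fun x => decide (x = 0 ∨ x = 1))).getLast? =
      ((asm k B').filter (fun x => decide (x = 0 ∨ x = 1))).getLast?) :
    ∀ c d, NS k c → NS k d →
      ((asm k B).filter (fun x => decide (x = c ∨ x = d))).getLast? =
        ((asm k B').filter (fun x => decide (x = c ∨ x = d))).getLast? := by
  intro c d hcn hdn
  have hdeg : ∀ z, deg k (fun j => (B j).count z) = deg k (fun j => (B' j).count z) := by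
    intro z
    unfold deg
    apply Finset.sum_congr rfl
    intro j hj
    exact hc j (by rw [Finset.mem_range] at hj; omega) z
  have hp2 : ∀ x, 2 ≤ x → x ≤ k + 1 → decide (x = c ∨ x = d) = false := by
    intro x h1 h2
    rw [decide_eq_false_iff_not]
    rintro (h | h)
    · exact hcn (h ▸ ⟨h1, h2⟩)
    · exact hdn (h ▸ ⟨h1, h2⟩)
  have one : ∀ z, NS k z → (∀ x, x = 0 ∨ x = 1 → (decide (x = c ∨ x = d) = true ↔ x = z)) →
      ((asm k B).filter (fun x => decide (x = c ∨ x = d))).getLast? =
        ((asm k B').filter (fun x => decide (x = c ∨ x = d))).getLast? := by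
    intro z hz hp
    rw [gtb_one hB hz hp hp2, gtb_one hB' hz hp hp2, hdeg]
  have ns0 : NS k 0 := fun h => by omega
  have ns1 : NS k 1 := fun h => by omega
  by_cases c0 : c = 0
  · by_cases d1 : d = 1
    · subst c0 d1
      exact hl
    · apply one 0 ns0
      intro x hx
      rw [decide_eq_true_iff]
      omega
  · by_cases c1 : c = 1
    · by_cases d0 : d = 0
      · subst c1 d0
        have e : (fun x : ℕ => decide (x = 1 ∨ x = 0)) = (fun x => decide (x = 0 ∨ x = 1)) := by
          funext x
          rw [decide_eq_decide]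
          exact Or.comm
        rw [e]
        exact hl
      · apply one 1 ns1
        intro x hx
        rw [decide_eq_true_iff]
        omega
    · by_cases d0 : d = 0
      · apply one 0 ns0
        intro x hx
        rw [decide_eq_true_iff]
        omega
      · by_cases d1 : d = 1
        · apply one 1 ns1
          intro x hx
          rw [decide_eq_true_iff]
          omega
        · have nil : ∀ C : ℕ → List ℕ, (∀ j ≤ k, ∀ c ∈ C j, c = 0 ∨ c = 1) →
              (asm k C).filter (fun x => decide (x = c ∨ x = d)) = [] := by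
            intro C hC
            rw [List.filter_eq_nil_iff]
            intro x hx
            rcases gtb_mem hC hx with h | h
            · rw [hp2 x h.1 h.2]
              exact Bool.false_ne_true
            · rw [decide_eq_true_iff]
              omega
          rw [nil B hB, nil B' hB']

/-- the normal form for words with the letters 0, 1 -/
theorem gtb_nf (hnf : NfaStmt) {β : FIC} (hcl : ClA β) {k : ℕ} {B B' : ℕ → List ℕ}
    (hB : ∀ j ≤ k, ∀ c ∈ B j, c = 0 ∨ c = 1) (hB' : ∀ j ≤ k, ∀ c ∈ B' j, c = 0 ∨ c = 1)
    (h0 : ∀ j ≤ k, (B j).count 0 = (B' j).count 0) (h1 : ∀ j ≤ k, (B j).count 1 = (B' j).count 1)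
    (hd0 : 2 ≤ deg k (fun j => (B j).count 0)) (hd1 : 2 ≤ deg k (fun j => (B j).count 1))
    (hl : ((asm k B).filter (fun x => decide (x = 0 ∨ x = 1))).getLast? =
      ((asm k B').filter (fun x => decide (x = 0 ∨ x = 1))).getLast?) :
    RR β (asm k B) (asm k B') := by
  have hc : ∀ j ≤ k, ∀ c, (B j).count c = (B' j).count c := by
    intro j hj c
    by_cases c0 : c = 0
    · rw [c0]; exact h0 j hj
    · by_cases c1 : c = 1
      · rw [c1]; exact h1 j hj
      · rw [List.count_eq_zero.2, List.count_eq_zero.2]
        · intro hm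
          rcases hB' j hj c hm with h | h
          · exact c0 h
          · exact c1 h
        · intro hm
          rcases hB j hj c hm with h | h
          · exact c0 h
          · exact c1 h
  apply hnf β hcl k B B' (gtb_blk hB) (gtb_blk hB') hc
  · intro j hj c hcm
    rcases hB j hj c hcm with h | h
    · rw [h]; exact hd0
    · rw [h]; exact hd1
  · exact gtb_last hB hB' hc hl

theorem gtb_bl_mem {p q : ℕ} {e : Bool} {c : ℕ} (h : c ∈ bl p q e) : c = 0 ∨ c = 1 := by
  unfold bl at h
  cases e
  · simp only [Bool.false_eq_true, if_false, List.mem_append, List.mem_replicate] at h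
    tauto
  · simp only [if_true, List.mem_append, List.mem_replicate] at h
    tauto

theorem gtb_bl_count0 (p q : ℕ) (e : Bool) : (bl p q e).count 0 = p := by
  unfold bl
  cases e <;> simp [List.count_replicate]

theorem gtb_bl_count1 (p q : ℕ) (e : Bool) : (bl p q e).count 1 = q := by
  unfold bl
  cases e <;> simp [List.count_replicate]

theorem gtb_max {k l : ℕ} {a : ℕ → ℕ} (h : (sp k a).max = (l : WithBot ℕ)) :
    l ≤ k ∧ a l ≠ 0 ∧ ∀ j, l < j → j ≤ k → a j = 0 := by
  have h1 : l ∈ sp k a := Finset.mem_of_max h
  unfold sp at h1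
  rw [Finset.mem_filter, Finset.mem_range] at h1
  refine ⟨by omega, h1.2, ?_⟩
  intro j hj hjk
  by_contra h2
  have h3 : j ∈ sp k a := by
    unfold sp
    rw [Finset.mem_filter, Finset.mem_range]
    exact ⟨by omega, h2⟩
  have h4 := Finset.le_max h3
  rw [h] at h4
  have h5 : j ≤ l := WithBot.coe_le_coe.1 h4
  omega

/-- the last letter of a two letter word -/
theorem gtb_last_w2 {k l : ℕ} {a b : ℕ → ℕ} (ha : (sp k a).max = (l : WithBot ℕ))
    (hb : (sp k b).max = (l : WithBot ℕ)) (e : ℕ → Bool) :
    ((w2 k a b e).filter (fun x => decide (x = 0 ∨ x = 1))).getLast? =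
      some (if e l then 0 else 1) := by
  obtain ⟨h1, h2, h3⟩ := gtb_max ha
  obtain ⟨_, h4, h5⟩ := gtb_max hb
  unfold w2
  apply gtb_last_asm k h1
  · intro j hj hjk
    show bl (a j) (b j) (e j) = []
    rw [h3 j hj hjk, h5 j hj hjk]
    unfold bl
    cases e j <;> rfl
  · show ((bl (a l) (b l) (e l)).filter (fun x => decide (x = 0 ∨ x = 1))).getLast? = _
    have e1 : (bl (a l) (b l) (e l)).filter (fun x => decide (x = 0 ∨ x = 1)) =
        bl (a l) (b l) (e l) := by
      rw [List.filter_eq_self]
      intro x hx
      rw [decide_eq_true_iff]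
      exact gtb_bl_mem hx
    rw [e1]
    unfold bl
    cases e l
    · simp only [Bool.false_eq_true, if_false]
      rw [List.getLast?_append, List.getLast?_replicate, if_neg h4]
      rfl
    · simp only [if_true]
      rw [List.getLast?_append, List.getLast?_replicate, if_neg h2]
      rfl
  · intro c h6 h7
    rw [decide_eq_false_iff_not]
    omega

theorem gtb_w2 (hnf : NfaStmt) {β : FIC} (hcl : ClA β) {k l : ℕ} {a b : ℕ → ℕ}
    (hda : 2 ≤ deg k a) (hdb : 2 ≤ deg k b) (ha : (sp k a).max = (l : WithBot ℕ))
    (hb : (sp k b).max = (l : WithBot ℕ)) {e e' : ℕ → Bool} (he : e l = e' l) :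
    RR β (w2 k a b e) (w2 k a b e') := by
  have hl : ((w2 k a b e).filter (fun x => decide (x = 0 ∨ x = 1))).getLast? =
      ((w2 k a b e').filter (fun x => decide (x = 0 ∨ x = 1))).getLast? := by
    rw [gtb_last_w2 ha hb, gtb_last_w2 ha hb, he]
  unfold w2 at hl ⊢
  apply gtb_nf hnf hcl
  · intro j _ c hc
    exact gtb_bl_mem hc
  · intro j _ c hc
    exact gtb_bl_mem hc
  · intro j _
    rw [gtb_bl_count0, gtb_bl_count0]
  · intro j _
    rw [gtb_bl_count1, gtb_bl_count1]
  · simpa only [gtb_bl_count0] using hda
  · simpa only [gtb_bl_count1] using hdb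
  · exact hl

/-- change of the types -/
theorem gtb_change {β : FIC} {k : ℕ} {a a' b b' : ℕ → ℕ} (ha : L1 β k a a') (hb : L1 β k b b') :
    RR β (w2 k a b (fun _ => true)) (w2 k a' b' (fun _ => true)) := by
  have h1 := rr_ins' β (fun j => List.replicate (b j) 1) (fun _ => []) (blkOk_mw k a)
    (blkOk_mw k a') ha
  have h2 := rr_ins β (fun _ => []) (fun j => List.replicate (a' j) 0) (fun _ => [1])
    (blkOk_mw k b) (blkOk_mw k b') hb
  have hrep : ∀ n : ℕ, (List.replicate n 0).flatMap (fun _ => [1]) = List.replicate n 1 := by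
    intro n
    induction n with
    | zero => rfl
    | succ n ih =>
      rw [List.replicate_succ, List.flatMap_cons, ih, List.replicate_succ]
      rfl
  simp only [List.append_nil] at h1
  simp only [List.nil_append, hrep] at h2
  unfold w2 bl
  simp only [if_true]
  exact β.trans h1 h2

theorem gtb (wbl : WblStmt) (hnf : NfaStmt) : GtbStmt := by
  intro β h3 hnc hcl k l T hT hTl hcls hno
  have key : ∀ W W' : Word, β.r W W' → QT k T W → QT k T W' := by
    rintro W W' hW ⟨B, hB, hlet, hTB, hlast⟩
    have hr : RR β (asm k B) W'.toList := by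
      unfold RR
      rw [← hB, FreeMonoid.ofList_toList, FreeMonoid.ofList_toList]
      exact hW
    obtain ⟨B', hB', hlet', _⟩ := wbl β h3 hnc k B W'.toList hlet hr
    rw [hB'] at hr
    have hlet2 : ∀ j ≤ k, ∀ c ∈ B' j, c = 0 ∨ c = 1 := fun j _ => hlet' j
    have hL0 := gtb_L1 (gtb_blk hlet) (gtb_blk hlet2) hr 0
    have hL1 := gtb_L1 (gtb_blk hlet) (gtb_blk hlet2) hr 1
    have hT' := hcls _ _ _ _ hTB hL0 hL1
    refine ⟨B', hB', hlet2, hT', ?_⟩
    obtain ⟨da, db, ma, mb⟩ := hTl _ _ hTB
    obtain ⟨da', db', ma', mb'⟩ := hTl _ _ hT'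
    rw [hB] at hlast
    rw [hB']
    by_contra hne
    have hlast' : ((asm k B').filter (fun x => decide (x = 0 ∨ x = 1))).getLast? = some 0 := by
      have hcnt : 0 < (asm k B').count 0 := by
        rw [count_asm (fun h => by omega)]
        omega
      have hm : 0 ∈ (asm k B').filter (fun x => decide (x = 0 ∨ x = 1)) := by
        rw [List.mem_filter]
        exact ⟨List.count_pos_iff.1 hcnt, by simp⟩
      have hnn := List.ne_nil_of_mem hm
      have h4 := List.getLast_mem hnn
      have h5 := List.getLast?_eq_getLast_of_ne_nil hnn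
      rw [List.mem_filter, decide_eq_true_iff] at h4
      rcases h4.2 with h6 | h6
      · rw [h5, h6]
      · rw [h6] at h5
        exact absurd h5 hne
    -- the four relations
    have c1 : RR β (asm k B) (w2 k (fun j => (B j).count 0) (fun j => (B j).count 1)
        (fun _ => false)) := by
      have h7 := gtb_last_w2 ma mb (fun _ => false)
      unfold w2 at h7 ⊢
      apply gtb_nf hnf hcl hlet
      · intro j _ c hc
        exact gtb_bl_mem hc
      · intro j _
        rw [gtb_bl_count0]
      · intro j _
        rw [gtb_bl_count1]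
      · exact da
      · exact db
      · rw [hlast, h7]
        rfl
    have c2 : RR β (asm k B') (w2 k (fun j => (B' j).count 0) (fun j => (B' j).count 1)
        (fun _ => true)) := by
      have h7 := gtb_last_w2 ma' mb' (fun _ => true)
      unfold w2 at h7 ⊢
      apply gtb_nf hnf hcl hlet2
      · intro j _ c hc
        exact gtb_bl_mem hc
      · intro j _
        rw [gtb_bl_count0]
      · intro j _
        rw [gtb_bl_count1]
      · exact da'
      · exact db'
      · rw [hlast', h7]
        rfl
    have c3 := gtb_change hL0 hL1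
    have c4 : RR β (w2 k (fun j => (B j).count 0) (fun j => (B j).count 1) (fun _ => false))
        (w2 k (fun j => (B j).count 0) (fun j => (B j).count 1) (fun _ => true)) :=
      β.trans (β.symm c1) (β.trans hr (β.trans c2 (β.symm c3)))
    apply hno _ _ hTB
    intro e
    unfold Ex
    cases he : e l with
    | false =>
      have h8 : RR β (w2 k (fun j => (B j).count 0) (fun j => (B j).count 1) e)
          (w2 k (fun j => (B j).count 0) (fun j => (B j).count 1) (fun _ => false)) :=
        gtb_w2 hnf hcl da db ma mb he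
      have h9 : RR β (w2 k (fun j => (B j).count 0) (fun j => (B j).count 1) (fun _ => true))
          (w2 k (fun j => (B j).count 0) (fun j => (B j).count 1) (flp e l)) := by
        apply gtb_w2 hnf hcl da db ma mb
        unfold flp
        rw [if_pos rfl, he]
        rfl
      exact β.trans h8 (β.trans c4 h9)
    | true =>
      have h8 : RR β (w2 k (fun j => (B j).count 0) (fun j => (B j).count 1) e)
          (w2 k (fun j => (B j).count 0) (fun j => (B j).count 1) (fun _ => true)) :=
        gtb_w2 hnf hcl da db ma mb he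
      have h9 : RR β (w2 k (fun j => (B j).count 0) (fun j => (B j).count 1) (fun _ => false))
          (w2 k (fun j => (B j).count 0) (fun j => (B j).count 1) (flp e l)) := by
        apply gtb_w2 hnf hcl da db ma mb
        unfold flp
        rw [if_pos rfl, he]
        rfl
      exact β.trans h8 (β.trans (β.symm c4) h9)
  intro u v huv φ m q
  constructor
  · exact key _ _ (β.mul (β.mul (β.refl m) (β.sub φ huv)) (β.refl q))
  · exact key _ _ (β.mul (β.mul (β.refl m) (β.sub φ (β.symm huv))) (β.refl q))

end Pool.Agent.MVO.H97
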