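import Pool.Agent.MVO.StmtsD
import Pool.Agent.Helper97_MVO.GTB

/-!
# Squad MVO, row GTC: the congruences of a set of pairs of types, for pins (class Cc)
-/

namespace Pool.Agent.MVO.H97

open Pool.Agent.MVO Pool.Agent.Helper14_MV Pool.Agent.Helper2_MV

/-- `S2` in a context -/
theorem gtc_s2 {β : FIC} (h : MVD.S2 β) {p q : List ℕ} {u v : ℕ} (hu : u ∈ p) (hv : v ∈ q) :
    RR β (p ++ u :: v :: q) (p ++ v :: u :: q) := by
  obtain ⟨p1, p2, rfl⟩ := List.append_of_mem hu
  obtain ⟨q1, q2, rfl⟩ := List.append_of_mem hv
  have h1 := h.sub (fun c => if c = 0 then [u] else if c = 3 then [v] else if c = 2 then p2 else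
    if c = 5 then q1 else [])
  have e1 : [0, 2, 0, 3, 5, 3].flatMap (fun c => if c = 0 then [u] else if c = 3 then [v] else
      if c = 2 then p2 else if c = 5 then q1 else []) = u :: (p2 ++ u :: v :: (q1 ++ [v])) := by
    simp
  have e2 : [0, 2, 3, 0, 5, 3].flatMap (fun c => if c = 0 then [u] else if c = 3 then [v] else
      if c = 2 then p2 else if c = 5 then q1 else []) = u :: (p2 ++ v :: u :: (q1 ++ [v])) := by
    simp
  rw [e1, e2] at h1
  have h2 := ((RR.refl (β := β) p1).append h1).append (RR.refl q2)
  simpa using h2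

/-- the simple occurrence of 1 goes to the left over the letters 0 -/
theorem gtc_move {β : FIC} (h : MVD.S2 β) {p : List ℕ} (hp : 1 ∈ p) (r : List ℕ) :
    ∀ s t : ℕ, 1 ≤ t → RR β (p ++ (List.replicate s 0 ++ 1 :: List.replicate t 0) ++ r)
      (p ++ (1 :: List.replicate (s + t) 0) ++ r) := by
  intro s
  induction s with
  | zero =>
    intro t _
    rw [List.replicate_zero, List.nil_append, Nat.zero_add]
    exact RR.refl _
  | succ s ih =>
    intro t ht
    have h1 : RR β ((p ++ List.replicate s 0) ++ 1 :: 0 :: (List.replicate t 0 ++ r))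
        ((p ++ List.replicate s 0) ++ 0 :: 1 :: (List.replicate t 0 ++ r)) := by
      apply gtc_s2 h
      · exact List.mem_append.2 (Or.inl hp)
      · apply List.mem_append.2
        left
        rw [List.mem_replicate]
        exact ⟨by omega, rfl⟩
    have h2 := ih (t + 1) (by omega)
    have e1 : p ++ (List.replicate (s + 1) 0 ++ 1 :: List.replicate t 0) ++ r =
        (p ++ List.replicate s 0) ++ 0 :: 1 :: (List.replicate t 0 ++ r) := by
      rw [List.replicate_succ']
      simp only [List.append_assoc, List.cons_append, List.nil_append]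
    have e2 : p ++ (List.replicate s 0 ++ 1 :: List.replicate (t + 1) 0) ++ r =
        (p ++ List.replicate s 0) ++ 1 :: 0 :: (List.replicate t 0 ++ r) := by
      rw [List.replicate_succ]
      simp only [List.append_assoc, List.cons_append]
    have e3 : s + 1 + t = s + (t + 1) := by omega
    rw [e1, e3]
    rw [e2] at h2
    exact β.trans (RR.symm h1) h2

theorem gtc_rep {l : List ℕ} {z y : ℕ} (h : ∀ c ∈ l, c = z ∨ c = y) (hy : l.count y = 0) :
    l = List.replicate (l.count z) z := by
  have h1 : ∀ c ∈ l, c = z := by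
    intro c hc
    rcases h c hc with h2 | h2
    · exact h2
    · rw [h2] at hc
      exact absurd hc (List.count_eq_zero.1 hy)
  rw [List.eq_replicate_iff]
  refine ⟨?_, h1⟩
  rw [eq_comm, List.count_eq_length]
  intro b hb
  exact (h1 b hb).symm

theorem gtc_indep {p q : ℕ} (h : p = 0 ∨ q = 0) (e e' : Bool) : bl p q e = bl p q e' := by
  unfold bl
  rcases h with h | h
  · subst h
    cases e <;> cases e' <;> simp
  · subst h
    cases e <;> cases e' <;> simp

theorem gtc_blk {l : List ℕ} (h : ∀ c ∈ l, c = 0 ∨ c = 1) (h2 : l.count 0 = 0 ∨ l.count 1 = 0)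
    (e : Bool) : l = bl (l.count 0) (l.count 1) e := by
  rcases h2 with h2 | h2
  · have h3 := gtc_rep (z := 1) (y := 0) (fun c hc => (h c hc).symm) h2
    rw [gtc_indep (Or.inl h2) e true]
    unfold bl
    rw [if_pos rfl, h2, List.replicate_zero, List.append_nil]
    exact h3
  · have h3 := gtc_rep h h2
    rw [gtc_indep (Or.inr h2) e true]
    unfold bl
    rw [if_pos rfl, h2, List.replicate_zero, List.nil_append]
    exact h3

/-- a block with one letter 1 -/
theorem gtc_one {l : List ℕ} (h : ∀ c ∈ l, c = 0 ∨ c = 1) (h1 : l.count 1 = 1) :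
    ∃ s t : ℕ, l = List.replicate s 0 ++ 1 :: List.replicate t 0 ∧ l.count 0 = s + t := by
  have hm : 1 ∈ l := List.count_pos_iff.1 (by omega)
  obtain ⟨u, v, huv⟩ := List.append_of_mem hm
  rw [huv, List.count_append, List.count_cons_self] at h1
  have hu := gtc_rep (l := u) (z := 0) (y := 1)
    (fun c hc => h c (by rw [huv]; exact List.mem_append.2 (Or.inl hc))) (by omega)
  have hv := gtc_rep (l := v) (z := 0) (y := 1)
    (fun c hc => h c (by
      rw [huv]; exact List.mem_append.2 (Or.inr (List.mem_cons_of_mem _ hc)))) (by omega)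
  refine ⟨u.count 0, v.count 0, ?_, ?_⟩
  · rw [← hu, ← hv]
    exact huv
  · rw [huv, List.count_append, List.count_cons_of_ne (by norm_num)]

theorem gtc_filter01 {l : List ℕ} (h : ∀ c ∈ l, c = 0 ∨ c = 1) :
    l.filter (fun x => decide (x = 0 ∨ x = 1)) = l := by
  rw [List.filter_eq_self]
  intro x hx
  rw [decide_eq_true_iff]
  exact h x hx

theorem gtc (wbl : WblStmt) (trf : TrfStmt) : GtcStmt := by
  intro β h3 hnc hS2 k l T hlk hT hTl hTp hcls hno
  have key : ∀ W W' : Word, β.r W W' → QT k T W → QT k T W' := by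
    rintro W W' hW ⟨B, hB, hlet, hTB, hlast⟩
    have hr : RR β (asm k B) W'.toList := by
      unfold RR
      rw [← hB, FreeMonoid.ofList_toList, FreeMonoid.ofList_toList]
      exact hW
    obtain ⟨B', hB', hlet', _⟩ := wbl β h3 hnc k B W'.toList hlet hr
    rw [hB'] at hr
    have hlet2 : ∀ j ≤ k, ∀ c ∈ B' j, c = 0 ∨ c = 1 := fun j _ => hlet' j
    have hL0 := gtb_L1 (gtb_blk hlet) (gtb_blk hlet2) hr 0
    have hL1 := gtb_L1 (gtb_blk hlet) (gtb_blk hlet2) hr 1
    have hT' := hcls _ _ _ _ hTB hL0 hL1
    refine ⟨B', hB', hlet2, hT', ?_⟩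
    obtain ⟨da, db, ma, mb⟩ := hTl _ _ hTB
    obtain ⟨da', db', ma', mb'⟩ := hTl _ _ hT'
    obtain ⟨ta1, ta2, ta3⟩ := hTp _ _ hTB
    obtain ⟨tb1, tb2, tb3⟩ := hTp _ _ hT'
    obtain ⟨_, xa, xa3⟩ := gtb_max ma
    obtain ⟨_, _, xb3⟩ := gtb_max mb
    obtain ⟨_, ya, ya3⟩ := gtb_max ma'
    obtain ⟨_, _, yb3⟩ := gtb_max mb'
    rw [hB] at hlast
    rw [hB']
    -- blocks behind `l` are empty
    have nilB : ∀ (C : ℕ → List ℕ), (∀ j ≤ k, ∀ c ∈ C j, c = 0 ∨ c = 1) →
        (∀ j, l < j → j ≤ k → (C j).count 0 = 0) → (∀ j, l < j → j ≤ k → (C j).count 1 = 0) →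
          ∀ j, l < j → j ≤ k → C j = [] := by
      intro C hC h0 h1 j hj hjk
      rw [gtc_rep (hC j hjk) (h1 j hj hjk), h0 j hj hjk, List.replicate_zero]
    have lastC : ∀ (C : ℕ → List ℕ), (∀ j ≤ k, ∀ c ∈ C j, c = 0 ∨ c = 1) →
        (∀ j, l < j → j ≤ k → (C j).count 0 = 0) → (∀ j, l < j → j ≤ k → (C j).count 1 = 0) →
          ∀ z : ℕ, (C l).getLast? = some z →
            ((asm k C).filter (fun x => decide (x = 0 ∨ x = 1))).getLast? = some z := by
      intro C hC h0 h1 z hz
      apply gtb_last_asm k hlk (nilB C hC h0 h1)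
      · rw [gtc_filter01 (hC l hlk)]
        exact hz
      · intro c h6 h7
        rw [decide_eq_false_iff_not]
        omega
    obtain ⟨s, t, hs, hst⟩ := gtc_one (hlet l hlk) ta2
    obtain ⟨s', t', hs', hst'⟩ := gtc_one (hlet2 l hlk) tb2
    -- `t = 0`
    have ht : t = 0 := by
      by_contra ht
      have h4 := lastC B hlet xa3 xb3 0 (by
        rw [hs]
        obtain ⟨t1, rfl⟩ : ∃ t1, t = t1 + 1 := ⟨t - 1, by omega⟩
        rw [List.replicate_succ', ← List.cons_append, ← List.append_assoc, List.getLast?_append]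
        rfl)
      rw [h4] at hlast
      exact absurd (Option.some.inj hlast) (by norm_num)
    by_contra hne
    have ht' : 1 ≤ t' := by
      by_contra ht'
      apply hne
      apply lastC B' hlet2 ya3 yb3 1
      have h5 : t' = 0 := by omega
      rw [hs', h5]
      simp
    -- the word `W`
    have eW : asm k B = w2 k (fun j => (B j).count 0) (fun j => (B j).count 1)
        (fun _ => false) := by
      unfold w2
      apply asm_congr
      intro j hj
      by_cases hjl : j = l
      · subst hjl
        have e1 : (B j).count 1 = 1 := ta2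
        have e2 : (B j).count 0 = s := by rw [hst, ht, Nat.add_zero]
        show B j = bl ((B j).count 0) ((B j).count 1) false
        rw [e1, e2]
        rw [hs, ht]
        unfold bl
        simp
      · exact gtc_blk (hlet j hj) (ta3 j hj hjl) _
    -- the word `W'`
    have eW' : RR β (asm k B') (w2 k (fun j => (B' j).count 0) (fun j => (B' j).count 1)
        (fun _ => true)) := by
      have e1 : w2 k (fun j => (B' j).count 0) (fun j => (B' j).count 1) (fun _ => true) =
          asm k (Function.update B' l (1 :: List.replicate (s' + t') 0)) := by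
        unfold w2
        apply asm_congr
        intro j hj
        by_cases hjl : j = l
        · subst hjl
          rw [Function.update_self]
          have e1 : (B' j).count 1 = 1 := tb2
          show bl ((B' j).count 0) ((B' j).count 1) true = _
          rw [e1, hst']
          unfold bl
          simp
        · rw [Function.update_of_ne hjl]
          exact (gtc_blk (hlet2 j hj) (tb3 j hj hjl) _).symm
      rw [e1, asm_update hlk, asm_split hlk, hs']
      apply gtc_move hS2 ?_ _ s' t' ht'
      -- the other occurrence of 1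
      obtain ⟨j, hj, hjl, hj1⟩ : ∃ j ≤ k, j ≠ l ∧ 1 ≤ (B' j).count 1 := by
        by_contra hcon
        push Not at hcon
        have h6 : deg k (fun j => (B' j).count 1) = (B' l).count 1 := by
          unfold deg
          apply Finset.sum_eq_single_of_mem l (Finset.mem_range.2 (by omega))
          intro j hj hjl
          rw [Finset.mem_range] at hj
          have := hcon j (by omega) hjl
          omega
        have h7 : (B' l).count 1 = 1 := tb2
        omega
      have hjlt : j < l := by
        by_contra h8
        have h9 : (B' j).count 1 = 0 := yb3 j (by omega) hj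
        omega
      exact mem_pre.2 (Or.inr ⟨j, hjlt, List.count_pos_iff.1 hj1⟩)
    have c3 := trf.1 β k _ _ _ _ hL0 hL1 (fun _ => true)
    have c4 : RR β (w2 k (fun j => (B j).count 0) (fun j => (B j).count 1) (fun _ => false))
        (w2 k (fun j => (B j).count 0) (fun j => (B j).count 1) (fun _ => true)) := by
      rw [← eW]
      exact β.trans hr (β.trans eW' (RR.symm c3))
    apply hno _ _ hTB
    intro e
    unfold Ex
    have hflag : ∀ e' : ℕ → Bool, w2 k (fun j => (B j).count 0) (fun j => (B j).count 1) e' =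
        w2 k (fun j => (B j).count 0) (fun j => (B j).count 1) (fun _ => e' l) := by
      intro e'
      unfold w2
      apply asm_congr
      intro j hj
      by_cases hjl : j = l
      · subst hjl
        rfl
      · exact gtc_indep (ta3 j hj hjl) _ _
    rw [hflag e, hflag (flp e l)]
    have hfl : flp e l l = !(e l) := by
      unfold flp
      rw [if_pos rfl]
    rw [hfl]
    cases e l with
    | false => exact c4
    | true => exact RR.symm c4
  intro u v huv φ m q
  constructor
  · exact key _ _ (β.mul (β.mul (β.refl m) (β.sub φ huv)) (β.refl q))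
  · exact key _ _ (β.mul (β.mul (β.refl m) (β.sub φ (β.symm huv))) (β.refl q))

end Pool.Agent.MVO.H97
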