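import Mathlib
import Pool.Agent.MVO.StmtsF
import Pool.Agent.Helper94_MVO.TCC

set_option autoImplicit false

/-! Row TFC of the squad MVO: tightness of class c3 over `O3` (adaptation of the row TCC). -/

namespace Pool.Agent.MVO.H97

open Pool.Agent.Helper14_MV Pool.Agent.Helper2_MV Pool.Agent.MVO
open Pool.Agent.MVO.H65.TacRow Pool.Agent.MVO.H94.TccRow

/-- the main case -/
theorem tfc_case (hoca : OcaStmt) (hocr : OcrStmt) (hfcn : FcnStmt) {β ρ : FIC} (hle : β ≤ ρ)
    (hcl : MVD.Cc ρ) (h3β : O3 (FC.ofFIC β)) (hcla : ClauseC3 β) (h3 : O3 (FC.ofFIC ρ)) {k : ℕ}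
    {a a' b : ℕ → ℕ} {i : ℕ} (hd : 2 ≤ deg k a) (hdd : deg k a = deg k a') (h1 : L1 ρ k a a')
    (hL : ¬ L1 β k a a') (hpr : pr k a ≠ pr k a') (hi : i ≤ k)
    (hB : ∃ j ≤ k, i < j ∧ 1 ≤ b j)
    (f1 : ∀ j < i, a j = 0 ∧ b j = 0) (f3 : 1 ≤ a i) (f4 : 1 ≤ b i) :
    ∃ c, L1 ρ k a c ∧ deg k c = deg k a ∧ ((c i = 0 ∨ (∃ j < i, 1 ≤ c j) ∨
      (∃ j ≤ k, j ≠ i ∧ 1 ≤ c j ∧ 1 ≤ b j)) ∨ Bt ρ k c b i) := by
  obtain ⟨m', hm', hmm'⟩ := exists_max (pr_nonempty (k := k) (a := a') (by omega))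
  have hra' := rp_rel hoca h3 hm' hmm'
  have hdr' : deg k (rp (pr k a') m' (deg k a')) = deg k a' := deg_rp pr_sub_range hm' card_pr_le
  by_cases hi' : i ∈ pr k a'
  swap
  · refine ⟨_, rr_trans h1 hra', by rw [hdr', hdd], Or.inl (Or.inl ?_)⟩
    have n2 : ¬ i = m' := fun h => hi' (by rw [h]; exact hm')
    unfold rp
    rw [if_neg hi', if_neg n2]
  by_cases hlt : ∃ j ∈ pr k a', j < i
  · obtain ⟨j, hj, hji⟩ := hlt
    refine ⟨_, rr_trans h1 hra', by rw [hdr', hdd], Or.inl (Or.inr (Or.inl ⟨j, hji, ?_⟩))⟩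
    unfold rp
    rw [if_pos hj]
    omega
  push Not at hlt
  have hip : i ∈ pr k a := by
    unfold pr
    rw [Finset.mem_filter, mem_sp']
    refine ⟨⟨hi, by omega⟩, ?_⟩
    intro j hj
    rw [(f1 j hj).1]
    omega
  have hall : ∀ j ∈ pr k a, i ≤ j := by
    intro j hj
    by_contra hn
    exact (mem_sp'.1 (pr_sub_sp hj)).2 (f1 j (by omega)).1
  have hex : ∃ m, tr m (pr k a) ≠ tr m (pr k a') :=
    ⟨max (pr k a).card (pr k a').card, by
      rw [tr_eq_self (le_max_left _ _), tr_eq_self (le_max_right _ _)]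
      exact hpr⟩
  obtain ⟨n, hn, hnmin⟩ : ∃ n, tr n (pr k a) ≠ tr n (pr k a') ∧
      ∀ m < n, tr m (pr k a) = tr m (pr k a') := by
    classical
    refine ⟨Nat.find hex, Nat.find_spec hex, ?_⟩
    intro m hm
    by_contra h
    exact Nat.find_min hex hm h
  have hn2 : 2 ≤ n := by
    by_contra hlt2
    apply hn
    have h4 : n = 0 ∨ n = 1 := by omega
    rcases h4 with h4 | h4
    · rw [h4, tr_zero, tr_zero]
    · rw [h4, tr_one hip hall, tr_one hi' hlt]
  obtain ⟨c, rfl⟩ : ∃ c, n = c + 1 := ⟨n - 1, by omega⟩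
  have hcX := hnmin c (by omega)
  have hge : ∀ m, c + 1 ≤ m → tr m (pr k a) ≠ tr m (pr k a') := by
    intro m hm h
    apply hn
    rw [← tr_tr hm, h, tr_tr hm]
  have hc1 : c ≤ (pr k a).card := le_card_of hcX hpr
  have hc2 : c ≤ (pr k a').card := le_card_of hcX.symm (fun h => hpr h.symm)
  have hN : c + 1 ≤ (pr k a).card ∨ c + 1 ≤ (pr k a').card := by
    by_contra hno
    apply hpr
    have h4 := hcX
    rw [tr_eq_self (by omega), tr_eq_self (by omega)] at h4
    exact h4
  have hle1 : (pr k a).card ≤ deg k a := card_pr_le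
  have hle2 : (pr k a').card ≤ deg k a' := card_pr_le
  obtain ⟨C1, C2, _, _, _⟩ := hocr (FC.ofFIC ρ) k a a' h3 hd hdd h1 hpr
  have hJ : ∀ m, c + 1 ≤ m → (m ≤ (pr k a).card ∨ m ≤ (pr k a').card) →
      JP (FC.ofFIC ρ) m (deg k a) := by
    intro m hm hm2
    by_cases h4 : 3 ≤ m
    · exact C1 m h4 (hge m hm) hm2
    · have h5 : m = 2 := by omega
      subst h5
      apply jp2 hoca h3
      exact C2 (by rw [min_of hip hall, min_of hi' hlt]) (hge 2 hm)
  -- the common initial segment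
  have hXc : (tr c (pr k a)).card = c := card_tr' hc1
  have hXs : tr c (pr k a) ⊆ Finset.range (k + 1) := tr_sub.trans pr_sub_range
  obtain ⟨q, hq, hqq⟩ := exists_max (P := tr c (pr k a)) (Finset.card_pos.1 (by omega))
  have hiX : i ∈ tr c (pr k a) := by
    have h4 : i ∈ tr 1 (tr c (pr k a)) := by
      rw [tr_tr (by omega), tr_one hip hall]
      exact Finset.mem_singleton_self i
    exact tr_sub h4
  have hqk := Finset.mem_range.1 (hXs hq)
  have hiq : i ≤ q := hqq i hiX
  have hdX : deg k (rp (tr c (pr k a)) q (deg k a)) = deg k a := deg_rp hXs hq (by omega)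
  have hpX : pr k (rp (tr c (pr k a)) q (deg k a)) = tr c (pr k a) := pr_rp hXs hq hqq
  have haX : L1 ρ k a (rp (tr c (pr k a)) q (deg k a)) :=
    chain hoca h3 (n := c + 1) (fun m hm hm2 => hJ m hm (Or.inl hm2)) ((pr k a).card - c) c
      (by omega) (by omega) _ hdX hpX
  have hv1 : ∀ t ∈ tr c (pr k a), 1 ≤ rp (tr c (pr k a)) q (deg k a) t := by
    intro t ht
    unfold rp
    rw [if_pos ht]
    omega
  have hv2 : 2 ≤ rp (tr c (pr k a)) q (deg k a) q := by
    unfold rp
    rw [if_pos hq, if_pos rfl, hXc]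
    omega
  by_cases hQ1 : ∃ j ∈ tr c (pr k a), j ≠ i ∧ b j ≠ 0
  · obtain ⟨j, hj, hji, hbj⟩ := hQ1
    have h5 := Finset.mem_range.1 (hXs hj)
    exact ⟨_, haX, hdX, Or.inl (Or.inr (Or.inr ⟨j, by omega, hji, hv1 j hj, by omega⟩))⟩
  push Not at hQ1
  by_cases hQ2 : ∃ j ≤ k, q < j ∧ b j ≠ 0
  · obtain ⟨j, hjk, hjq, hbj⟩ := hQ2
    have hlt2 : ∀ t ∈ tr c (pr k a), t < j := fun t ht => by
      have := hqq t ht
      omega
    have hjX : ¬ j ∈ tr c (pr k a) := fun h => lt_irrefl j (hlt2 j h)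
    have hYs : insert j (tr c (pr k a)) ⊆ Finset.range (k + 1) := by
      intro t ht
      rcases Finset.mem_insert.1 ht with h | h
      · rw [h, Finset.mem_range]
        omega
      · exact hXs h
    have hYc : (insert j (tr c (pr k a))).card = c + 1 := by
      rw [Finset.card_insert_of_notMem hjX, hXc]
    have hYj : j ∈ insert j (tr c (pr k a)) := Finset.mem_insert_self _ _
    have hYm : ∀ t ∈ insert j (tr c (pr k a)), t ≤ j := by
      intro t ht
      rcases Finset.mem_insert.1 ht with h | h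
      · omega
      · exact (hlt2 t h).le
    have hdY : deg k (rp (insert j (tr c (pr k a))) j (deg k a)) = deg k a :=
      deg_rp hYs hYj (by omega)
    have hpY : pr k (rp (insert j (tr c (pr k a))) j (deg k a)) = insert j (tr c (pr k a)) :=
      pr_rp hYs hYj hYm
    have htY := tr_insert hlt2
    rw [hXc] at htY
    have h4 := hJ (c + 1) (le_refl _) hN k (rp (insert j (tr c (pr k a))) j (deg k a))
      (rp (tr c (pr k a)) q (deg k a)) hdY hdX (by rw [hpY, hYc])
      (by rw [hpX, hpY, Nat.add_sub_cancel, htY])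
    refine ⟨_, rr_trans haX ((FC.ofFIC ρ).symm h4), hdY,
      Or.inl (Or.inr (Or.inr ⟨j, hjk, by omega, ?_, by omega⟩))⟩
    unfold rp
    rw [if_pos hYj]
    omega
  push Not at hQ2
  obtain ⟨j, hjk, hij, hbj⟩ := hB
  have hjq : j < q := by
    rcases Nat.lt_trichotomy j q with h | h | h
    · exact h
    · exfalso
      have h6 := hQ1 q hq (by omega)
      rw [← h] at h6
      omega
    · exfalso
      have h6 := hQ2 j hjk h
      omega
  have hc3 : 2 ≤ c := by
    have h4 : ({i, q} : Finset ℕ) ⊆ tr c (pr k a) := by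
      intro t ht
      rw [Finset.mem_insert, Finset.mem_singleton] at ht
      rcases ht with h | h
      · rw [h]
        exact hiX
      · rw [h]
        exact hq
    have h5 := Finset.card_le_card h4
    rw [Finset.card_pair (by omega), hXc] at h5
    exact h5
  rcases hcla with hjj | hv
  · exfalso
    apply hL
    have h4 : L1 β k a (rp (tr c (pr k a)) q (deg k a)) :=
      chain hoca h3β (n := c + 1) (fun m hm _ => jpd hoca h3β hjj (by omega))
        ((pr k a).card - c) c (by omega) (by omega) _ hdX hpX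
    have h5 : L1 β k a' (rp (tr c (pr k a)) q (deg k a)) :=
      chain hoca h3β (n := c + 1) (fun m hm _ => jpd hoca h3β hjj (by omega))
        ((pr k a').card - c) c (by omega) (by omega) _ (hdX.trans hdd) (hpX.trans hcX)
    exact rr_trans h4 ((FC.ofFIC β).symm h5)
  obtain ⟨_, _, F3, F4, _⟩ := hfcn ρ hcl
  have hbm : BMap 2 k (t3 i j q) := bmap_t3 hij.le hjq.le (by omega)
  have e0 : t3 i j q 0 = i := by
    unfold t3
    rw [if_pos rfl]
  have hA := psh_t3 i j q 1 0 2
  have hB := psh_t3 i j q 1 1 0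
  have hAq : 1 ≤ psh 2 (t3 i j q) (v3 1 0 2) q := by
    rw [hA, if_pos (rfl : q = q)]
    omega
  have hBj : 1 ≤ psh 2 (t3 i j q) (v3 1 1 0) j := by
    rw [hB, if_pos (rfl : j = j)]
    omega
  have h4 := F4 2 k (t3 i j q) (v3 1 0 2) (v3 1 1 0) 0 hbm (by omega)
    (by unfold v3; rw [if_pos rfl]) (by unfold v3; rw [if_pos rfl])
    (fun t ht => by omega) ⟨q, by omega, by rw [e0]; omega, hAq⟩
    ⟨j, hjk, by rw [e0]; exact hij, hBj⟩ (bt_mono hle hv)
  rw [e0] at h4
  have h5 := F3 k (psh 2 (t3 i j q) (v3 1 0 2)) (psh 2 (t3 i j q) (v3 1 1 0))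
    (fun t => rp (tr c (pr k a)) q (deg k a) t - psh 2 (t3 i j q) (v3 1 0 2) t)
    (fun t => b t - psh 2 (t3 i j q) (v3 1 1 0) t) i hi
    (by rw [hA, if_pos rfl]; omega) (by rw [hB, if_pos rfl]; omega)
    (by
      intro t ht
      have n1 : ¬ t = i := by omega
      have n2 : ¬ t = j := by omega
      have n3 : ¬ t = q := by omega
      exact ⟨by rw [hA, if_neg n1, if_neg n2, if_neg n3],
        by rw [hB, if_neg n1, if_neg n2, if_neg n3]⟩)
    ⟨q, by omega, by omega, hAq⟩ ⟨j, hjk, hij, hBj⟩ h4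
  have ea : (fun t => psh 2 (t3 i j q) (v3 1 0 2) t +
      (rp (tr c (pr k a)) q (deg k a) t - psh 2 (t3 i j q) (v3 1 0 2) t)) =
      rp (tr c (pr k a)) q (deg k a) := by
    funext t
    rw [hA]
    have h6 := hv1 i hiX
    by_cases hti : t = i
    · have n1 : ¬ t = q := by omega
      rw [← hti] at h6
      simp only [if_pos hti, if_neg n1]
      split_ifs <;> omega
    · by_cases htq : t = q
      · have n1 : ¬ t = j := by omega
        have hv3 : 2 ≤ rp (tr c (pr k a)) q (deg k a) t := by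
          rw [htq]
          exact hv2
        simp only [if_neg hti, if_pos htq, if_neg n1]
        omega
      · simp only [if_neg hti, if_neg htq]
        split_ifs <;> omega
  have eb : (fun t => psh 2 (t3 i j q) (v3 1 1 0) t +
      (b t - psh 2 (t3 i j q) (v3 1 1 0) t)) = b := by
    funext t
    rw [hB]
    by_cases hti : t = i
    · have htj : ¬ t = j := by omega
      rw [← hti] at f4
      simp only [if_pos hti, if_neg htj]
      split_ifs <;> omega
    · by_cases htj : t = j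
      · have h7 : 1 ≤ b t := by
          rw [htj]
          exact hbj
        simp only [if_neg hti, if_pos htj]
        split_ifs <;> omega
      · simp only [if_neg hti, if_neg htj]
        split_ifs <;> omega
  rw [ea, eb] at h5
  exact ⟨_, haX, hdX, Or.inr h5⟩

/-- **TFC** -/
theorem tfc (hoca : OcaStmt) (hocr : OcrStmt) (hfcn : FcnStmt) : TfcStmt := by
  intro β ρ hle hcl h3 hcla k a a' b i hd hdd h1 hL hi hA hB f1 f3 f4
  have hpr : pr k a ≠ pr k a' := fun hpr => hL (hoca (FC.ofFIC β) k a a' h3 hdd hpr)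
  have h3ρ : O3 (FC.ofFIC ρ) := rr_mono hle h3
  obtain ⟨N0, N2, _, _, _⟩ := hfcn ρ hcl
  obtain ⟨c, hac, hdc, hc⟩ := tfc_case hoca hocr hfcn hle hcl h3 hcla h3ρ (by omega) hdd h1 hL
    hpr hi hB f1 f3 f4
  have hb : 2 ≤ deg k b := by
    obtain ⟨j, hj, hij, hbj⟩ := hB
    unfold deg
    have h4 : ({i, j} : Finset ℕ) ⊆ Finset.range (k + 1) := by
      intro t ht
      rw [Finset.mem_insert, Finset.mem_singleton] at ht
      rw [Finset.mem_range]
      omega
    have h5 : ∑ t ∈ ({i, j} : Finset ℕ), b t ≤ ∑ t ∈ Finset.range (k + 1), b t :=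
      Finset.sum_le_sum_of_subset h4
    rw [Finset.sum_pair (by omega)] at h5
    omega
  refine N2 k a c b i hac ?_
  rcases hc with h | h
  · refine N0 k c b i (by omega) hb hi hB ?_
    rcases h with h | h | h
    · exact Or.inl h
    · exact Or.inr (Or.inl h)
    · exact Or.inr (Or.inr (Or.inl h))
  · exact h

end Pool.Agent.MVO.H97
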